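import Mathlib

/-!
# The Ellenberg-Gijswijt bound for cap sets, in exponential form

If `A ⊆ 𝔽₃^{3l}` has no three distinct points with sum zero, then `|A| 16^l ≤ 3 * 343^l`.
-/

set_option autoImplicit false

namespace Pool.Agent.H18VS

open Finset

/-- A subspace `W` of `ι → ZMod 3` contains a vector whose support has at least `dim W` elements. -/
theorem exists_large_support {ι : Type*} [Fintype ι] [DecidableEq ι]
    (W : Submodule (ZMod 3) (ι → ZMod 3)) :
    ∃ u ∈ W, Module.finrank (ZMod 3) W ≤ (univ.filter (fun i => u i ≠ 0)).card := by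
  classical
  obtain ⟨u, hu⟩ := Finite.exists_max (fun u : W => (univ.filter (fun i => (u : ι → ZMod 3) i ≠ 0)).card)
  refine ⟨u, u.2, ?_⟩
  by_contra hlt
  push Not at hlt
  set S := univ.filter (fun i => (u : ι → ZMod 3) i ≠ 0) with hS
  let f : W →ₗ[ZMod 3] (S → ZMod 3) :=
    { toFun := fun w s => (w : ι → ZMod 3) s
      map_add' := fun a b => by ext; simp
      map_smul' := fun a b => by ext; simp }
  have hker : LinearMap.ker f ≠ ⊥ := by
    apply LinearMap.ker_ne_bot_of_finrank_lt
    simpa using hlt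
  obtain ⟨w, hw, hw0⟩ := (Submodule.ne_bot_iff _).1 hker
  have hwS : ∀ i, (u : ι → ZMod 3) i ≠ 0 → (w : ι → ZMod 3) i = 0 := by
    intro i hi
    have := LinearMap.mem_ker.1 hw
    have h2 := congrFun this ⟨i, by simp [hS, hi]⟩
    simpa [f] using h2
  have hwne : ∃ i, (w : ι → ZMod 3) i ≠ 0 := by
    by_contra hcon
    push Not at hcon
    apply hw0
    ext i
    simpa using hcon i
  obtain ⟨i, hi⟩ := hwne
  have hui : (u : ι → ZMod 3) i = 0 := by
    by_contra h
    exact hi (hwS i h)
  have hsub : S ⊂ univ.filter (fun i => ((u + w : W) : ι → ZMod 3) i ≠ 0) := by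
    rw [Finset.ssubset_iff_of_subset]
    · refine ⟨i, ?_, ?_⟩
      · simp [hui, hi]
      · simp [hS, hui]
    · intro j hj
      have hj' : (u : ι → ZMod 3) j ≠ 0 := by simpa [hS] using hj
      simp [hwS j hj', hj']
  exact absurd (hu (u + w)) (not_le.2 (Finset.card_lt_card hsub))

/-- A subspace cut out by `M` linear equations. -/
theorem finrank_ker_ge {ι κ : Type*} [Fintype ι] [DecidableEq ι] [Fintype κ]
    (g : (ι → ZMod 3) →ₗ[ZMod 3] (κ → ZMod 3)) :
    Fintype.card ι ≤ Module.finrank (ZMod 3) (LinearMap.ker g) + Fintype.card κ := by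
  have h := LinearMap.finrank_range_add_finrank_ker g
  have h2 : Module.finrank (ZMod 3) (LinearMap.range g) ≤ Fintype.card κ := by
    simpa using Submodule.finrank_le (LinearMap.range g)
  simp only [Module.finrank_fintype_fun_eq_card] at h
  omega

/-- The coefficients of `1 - (x + y + z)^2`. -/
def coef (p : Fin 3 × Fin 3 × Fin 3) : ZMod 3 :=
  if (p.1 : ℕ) + p.2.1 + p.2.2 = 0 then 1
  else if (p.1 : ℕ) + p.2.1 + p.2.2 = 2 then
    (if (p.1 : ℕ) = 2 ∨ (p.2.1 : ℕ) = 2 ∨ (p.2.2 : ℕ) = 2 then -1 else 1)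
  else 0

theorem coef_expand (x y z : ZMod 3) :
    (if x + y + z = 0 then (1 : ZMod 3) else 0) =
      ∑ p : Fin 3 × Fin 3 × Fin 3, coef p * (x ^ (p.1 : ℕ) * y ^ (p.2.1 : ℕ) * z ^ (p.2.2 : ℕ)) := by
  revert x y z
  decide

theorem coef_ne_zero {p : Fin 3 × Fin 3 × Fin 3} (h : coef p ≠ 0) :
    (p.1 : ℕ) + p.2.1 + p.2.2 ≤ 2 := by
  revert p
  decide

/-- The monomial with exponents `α`. -/
def mon {m : ℕ} (α : Fin m → Fin 3) (x : Fin m → ZMod 3) : ZMod 3 := ∏ i, x i ^ (α i : ℕ)

/-- Total degree. -/
def tdeg {m : ℕ} (α : Fin m → Fin 3) : ℕ := ∑ i, (α i : ℕ)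

theorem indicator_expand {m : ℕ} (x y z : Fin m → ZMod 3) :
    (if x + y + z = 0 then (1 : ZMod 3) else 0) =
      ∑ p : Fin m → Fin 3 × Fin 3 × Fin 3,
        (∏ i, coef (p i)) * (mon (fun i => (p i).1) x * mon (fun i => (p i).2.1) y *
          mon (fun i => (p i).2.2) z) := by
  classical
  have h1 : (if x + y + z = 0 then (1 : ZMod 3) else 0) =
      ∏ i, (if x i + y i + z i = 0 then (1 : ZMod 3) else 0) := by
    rw [Finset.prod_ite_zero]
    simp [funext_iff]
  rw [h1]
  simp_rw [coef_expand]
  rw [Finset.prod_univ_sum]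
  simp only [Fintype.piFinset_univ]
  refine Finset.sum_congr rfl fun p _ => ?_
  simp only [mon, ← Finset.prod_mul_distrib]

/-- the low degree monomials in `3l` variables -/
def Low (l : ℕ) : Type := {α : Fin (3 * l) → Fin 3 // tdeg α ≤ 2 * l}

instance (l : ℕ) : Fintype (Low l) := by unfold Low; infer_instance
instance (l : ℕ) : DecidableEq (Low l) := by unfold Low; infer_instance

theorem card_low (l : ℕ) : Fintype.card (Low l) * 16 ^ l ≤ 343 ^ l := by
  classical
  have h1 : ∑ α : Fin (3 * l) → Fin 3, ∏ i, 2 ^ (2 - (α i : ℕ)) = 7 ^ (3 * l) := by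
    have := Finset.prod_univ_sum (fun _ : Fin (3 * l) => (univ : Finset (Fin 3)))
      (fun _ a => 2 ^ (2 - (a : ℕ)))
    simp only [Fintype.piFinset_univ] at this
    rw [← this]
    simp [Fin.sum_univ_three]
  have h2 : ∀ α : Fin (3 * l) → Fin 3, (∏ i, 2 ^ (2 - (α i : ℕ))) = 2 ^ (6 * l - tdeg α) := by
    intro α
    rw [Finset.prod_pow_eq_pow_sum]
    congr 1
    unfold tdeg
    have : ∑ i, (2 - (α i : ℕ)) + ∑ i, (α i : ℕ) = 6 * l := by
      rw [← Finset.sum_add_distrib]
      have : ∀ i ∈ (univ : Finset (Fin (3 * l))), 2 - (α i : ℕ) + (α i : ℕ) = 2 := by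
        intro i _
        have := (α i).2
        omega
      rw [Finset.sum_congr rfl this]
      simp
      ring
    omega
  have h3 : Fintype.card (Low l) * 2 ^ (4 * l) ≤ 7 ^ (3 * l) := by
    rw [← h1]
    have hc : Fintype.card (Low l) = (univ.filter (fun α : Fin (3 * l) → Fin 3 => tdeg α ≤ 2 * l)).card := by
      unfold Low
      rw [Fintype.card_subtype]
    rw [hc, ← smul_eq_mul, ← Finset.sum_const]
    calc ∑ α ∈ univ.filter (fun α : Fin (3 * l) → Fin 3 => tdeg α ≤ 2 * l), 2 ^ (4 * l)
        ≤ ∑ α ∈ univ.filter (fun α : Fin (3 * l) → Fin 3 => tdeg α ≤ 2 * l),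
            ∏ i, 2 ^ (2 - (α i : ℕ)) := by
          refine Finset.sum_le_sum fun α hα => ?_
          rw [h2]
          have : tdeg α ≤ 2 * l := by simpa using hα
          exact Nat.pow_le_pow_right (by norm_num) (by omega)
      _ ≤ _ := Finset.sum_le_sum_of_subset (Finset.filter_subset _ _)
  have e1 : (2 : ℕ) ^ (4 * l) = 16 ^ l := by rw [pow_mul]; norm_num
  have e2 : (7 : ℕ) ^ (3 * l) = 343 ^ l := by rw [pow_mul]; norm_num
  rwa [e1, e2] at h3

/-- The core inequality. -/
theorem capset_core (l : ℕ) (A : Finset (Fin (3 * l) → ZMod 3))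
    (hA : ∀ x ∈ A, ∀ y ∈ A, ∀ z ∈ A, x + y + z = 0 → x = y ∧ y = z) :
    A.card ≤ 3 * Fintype.card (Low l) := by
  classical
  -- orthogonality to low monomials
  let g : (A → ZMod 3) →ₗ[ZMod 3] (Low l → ZMod 3) :=
    { toFun := fun u α => ∑ z : A, u z * mon α.1 (z : Fin (3 * l) → ZMod 3)
      map_add' := by
        intro a b; ext α; simp [add_mul, Finset.sum_add_distrib]
      map_smul' := by
        intro a b; ext α; simp [Finset.mul_sum, mul_assoc] }
  obtain ⟨u, hu, hus⟩ := exists_large_support (LinearMap.ker g)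
  have hdim := finrank_ker_ge g
  have hug : ∀ α : Fin (3 * l) → Fin 3, tdeg α ≤ 2 * l →
      ∑ z : A, u z * mon α (z : Fin (3 * l) → ZMod 3) = 0 := by
    intro α hα
    exact congrFun (LinearMap.mem_ker.1 hu) ⟨α, hα⟩
  -- coefficients
  let c : (Fin (3 * l) → Fin 3 × Fin 3 × Fin 3) → ZMod 3 := fun p =>
    (∏ i, coef (p i)) * ∑ z : A, u z * mon (fun i => (p i).2.2) (z : Fin (3 * l) → ZMod 3)
  let lo1 : (Fin (3 * l) → Fin 3 × Fin 3 × Fin 3) → Prop := fun p => tdeg (fun i => (p i).1) ≤ 2 * l
  let lo2 : (Fin (3 * l) → Fin 3 × Fin 3 × Fin 3) → Prop := fun p => tdeg (fun i => (p i).2.1) ≤ 2 * l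
  have hc0 : ∀ p, ¬ lo1 p → ¬ lo2 p → c p = 0 := by
    intro p h1 h2
    by_cases h3 : tdeg (fun i => (p i).2.2) ≤ 2 * l
    · simp only [c]
      rw [hug _ h3, mul_zero]
    · by_cases h4 : ∏ i, coef (p i) = 0
      · simp [c, h4]
      · exfalso
        have h5 : ∀ i, coef (p i) ≠ 0 := by
          intro i hi
          exact h4 (Finset.prod_eq_zero (Finset.mem_univ i) hi)
        have h6 : tdeg (fun i => (p i).1) + tdeg (fun i => (p i).2.1) + tdeg (fun i => (p i).2.2)
            ≤ 6 * l := by
          unfold tdeg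
          rw [← Finset.sum_add_distrib, ← Finset.sum_add_distrib]
          calc ∑ i, (((p i).1 : ℕ) + ((p i).2.1 : ℕ) + ((p i).2.2 : ℕ))
              ≤ ∑ _i : Fin (3 * l), 2 := Finset.sum_le_sum fun i _ => coef_ne_zero (h5 i)
            _ = 6 * l := by simp; ring
        simp only [lo1, lo2, not_le] at h1 h2 h3
        omega
  -- the diagonal matrix
  have hdiag : ∀ x y : A, (Matrix.diagonal u : Matrix A A (ZMod 3)) x y =
      ∑ p, c p * (mon (fun i => (p i).1) (x : Fin (3 * l) → ZMod 3) *
        mon (fun i => (p i).2.1) (y : Fin (3 * l) → ZMod 3)) := by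
    intro x y
    have h1 : ∑ z : A, u z * (if (x : Fin (3 * l) → ZMod 3) + y + z = 0 then (1 : ZMod 3) else 0) =
        (Matrix.diagonal u : Matrix A A (ZMod 3)) x y := by
      by_cases hxy : x = y
      · subst hxy
        rw [Matrix.diagonal_apply_eq]
        rw [Finset.sum_eq_single x]
        · have : (x : Fin (3 * l) → ZMod 3) + x + x = 0 := by
            funext i
            simp only [Pi.add_apply, Pi.zero_apply]
            generalize (x : Fin (3 * l) → ZMod 3) i = t
            revert t
            decide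
          simp [this]
        · intro z _ hz
          have : ¬ ((x : Fin (3 * l) → ZMod 3) + x + z = 0) := by
            intro h
            have := hA x x.2 x x.2 z z.2 h
            exact hz (Subtype.ext this.2.symm)
          simp [this]
        · intro h; exact absurd (Finset.mem_univ _) h
      · rw [Matrix.diagonal_apply_ne _ hxy]
        apply Finset.sum_eq_zero
        intro z _
        have : ¬ ((x : Fin (3 * l) → ZMod 3) + y + z = 0) := by
          intro h
          have := hA x x.2 y y.2 z z.2 h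
          exact hxy (Subtype.ext this.1)
        simp [this]
    rw [← h1]
    simp_rw [indicator_expand]
    simp only [c]
    simp_rw [Finset.mul_sum, Finset.sum_mul]
    rw [Finset.sum_comm]
    refine Finset.sum_congr rfl fun p _ => Finset.sum_congr rfl fun z _ => ?_
    ring
  -- factorization
  let B : Matrix A (Low l ⊕ Low l) (ZMod 3) := fun x s =>
    match s with
    | Sum.inl α => mon α.1 (x : Fin (3 * l) → ZMod 3)
    | Sum.inr β => ∑ p ∈ univ.filter (fun p => ¬ lo1 p ∧ (fun i => (p i).2.1) = β.1),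
        c p * mon (fun i => (p i).1) (x : Fin (3 * l) → ZMod 3)
  let C : Matrix (Low l ⊕ Low l) A (ZMod 3) := fun s y =>
    match s with
    | Sum.inl α => ∑ p ∈ univ.filter (fun p => (fun i => (p i).1) = α.1),
        c p * mon (fun i => (p i).2.1) (y : Fin (3 * l) → ZMod 3)
    | Sum.inr β => mon β.1 (y : Fin (3 * l) → ZMod 3)
  have hfac : (Matrix.diagonal u : Matrix A A (ZMod 3)) = B * C := by
    ext x y
    rw [hdiag, Matrix.mul_apply, Fintype.sum_sum_type]
    simp only [B, C]
    have e1 : ∑ α : Low l, mon α.1 (x : Fin (3 * l) → ZMod 3) *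
        ∑ p ∈ univ.filter (fun p : Fin (3 * l) → Fin 3 × Fin 3 × Fin 3 => (fun i => (p i).1) = α.1),
          c p * mon (fun i => (p i).2.1) (y : Fin (3 * l) → ZMod 3) =
        ∑ p ∈ univ.filter (fun p => lo1 p), c p * (mon (fun i => (p i).1) (x : Fin (3 * l) → ZMod 3) *
          mon (fun i => (p i).2.1) (y : Fin (3 * l) → ZMod 3)) := by
      simp_rw [Finset.mul_sum]
      rw [← Finset.sum_fiberwise_of_maps_to (s := univ.filter (fun p => lo1 p))
        (t := (univ : Finset (Fin (3 * l) → Fin 3)).filter (fun α => tdeg α ≤ 2 * l))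
        (g := fun p i => (p i).1)]
      · rw [Finset.sum_subtype (p := fun α : Fin (3 * l) → Fin 3 => tdeg α ≤ 2 * l)
          (univ.filter (fun α : Fin (3 * l) → Fin 3 => tdeg α ≤ 2 * l)) (by intro α; simp)]
        refine Finset.sum_congr rfl fun α _ => ?_
        have : (univ.filter (fun p => lo1 p)).filter (fun p => (fun i => (p i).1) = α.1) =
            univ.filter (fun p : Fin (3 * l) → Fin 3 × Fin 3 × Fin 3 => (fun i => (p i).1) = α.1) := by
          ext p
          simp only [Finset.mem_filter, Finset.mem_univ, true_and, lo1]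
          constructor
          · rintro ⟨_, h⟩; exact h
          · intro h; exact ⟨by rw [h]; exact α.2, h⟩
        rw [this]
        refine Finset.sum_congr rfl fun p hp => ?_
        have hp' : (fun i => (p i).1) = α.1 := by simpa using hp
        rw [hp']
        ring
      · intro p hp
        have : lo1 p := by simpa using hp
        simpa using this
    have e2 : ∑ β : Low l, (∑ p ∈ univ.filter (fun p : Fin (3 * l) → Fin 3 × Fin 3 × Fin 3 =>
          ¬ lo1 p ∧ (fun i => (p i).2.1) = β.1),
          c p * mon (fun i => (p i).1) (x : Fin (3 * l) → ZMod 3)) *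
          mon β.1 (y : Fin (3 * l) → ZMod 3) =
        ∑ p ∈ univ.filter (fun p => ¬ lo1 p ∧ lo2 p),
          c p * (mon (fun i => (p i).1) (x : Fin (3 * l) → ZMod 3) *
          mon (fun i => (p i).2.1) (y : Fin (3 * l) → ZMod 3)) := by
      simp_rw [Finset.sum_mul]
      rw [← Finset.sum_fiberwise_of_maps_to (s := univ.filter (fun p => ¬ lo1 p ∧ lo2 p))
        (t := (univ : Finset (Fin (3 * l) → Fin 3)).filter (fun α => tdeg α ≤ 2 * l))
        (g := fun p i => (p i).2.1)]
      · rw [Finset.sum_subtype (p := fun α : Fin (3 * l) → Fin 3 => tdeg α ≤ 2 * l)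
          (univ.filter (fun α : Fin (3 * l) → Fin 3 => tdeg α ≤ 2 * l)) (by intro α; simp)]
        refine Finset.sum_congr rfl fun α _ => ?_
        have : (univ.filter (fun p => ¬ lo1 p ∧ lo2 p)).filter (fun p => (fun i => (p i).2.1) = α.1) =
            univ.filter (fun p : Fin (3 * l) → Fin 3 × Fin 3 × Fin 3 =>
              ¬ lo1 p ∧ (fun i => (p i).2.1) = α.1) := by
          ext p
          simp only [Finset.mem_filter, Finset.mem_univ, true_and]
          constructor
          · rintro ⟨⟨h1, _⟩, h⟩; exact ⟨h1, h⟩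
          · rintro ⟨h1, h⟩
            refine ⟨⟨h1, ?_⟩, h⟩
            simp only [lo2]
            rw [h]; exact α.2
        rw [this]
        refine Finset.sum_congr rfl fun p hp => ?_
        have hp' : (fun i => (p i).2.1) = α.1 := by
          have := (Finset.mem_filter.1 hp).2.2
          exact this
        rw [hp']
        ring
      · intro p hp
        have : lo2 p := (Finset.mem_filter.1 hp).2.2
        simpa using this
    rw [e1, e2]
    rw [← Finset.sum_filter_add_sum_filter_not univ (fun p => lo1 p)]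
    congr 1
    rw [← Finset.sum_filter_add_sum_filter_not (univ.filter (fun p => ¬ lo1 p)) (fun p => lo2 p)]
    rw [Finset.filter_filter, Finset.filter_filter]
    rw [show ∑ p ∈ univ.filter (fun p => ¬ lo1 p ∧ ¬ lo2 p),
      c p * (mon (fun i => (p i).1) (x : Fin (3 * l) → ZMod 3) *
          mon (fun i => (p i).2.1) (y : Fin (3 * l) → ZMod 3)) = 0 from ?_, add_zero]
    apply Finset.sum_eq_zero
    intro p hp
    have hp' := (Finset.mem_filter.1 hp).2
    rw [hc0 p hp'.1 hp'.2, zero_mul]
  have hrank : (univ.filter (fun i => u i ≠ 0)).card ≤ 2 * Fintype.card (Low l) := by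
    have h1 : (Matrix.diagonal u : Matrix A A (ZMod 3)).rank =
        Fintype.card {i // u i ≠ 0} := Matrix.rank_diagonal u
    have h2 : (B * C).rank ≤ B.rank := Matrix.rank_mul_le_left B C
    have h3 : B.rank ≤ Fintype.card (Low l ⊕ Low l) := by
      exact Matrix.rank_le_card_width B
    rw [← hfac, h1] at h2
    rw [Fintype.card_subtype] at h2
    rw [Fintype.card_sum] at h3
    omega
  have hcardA : Fintype.card A = A.card := by simp
  rw [hcardA] at hdim
  omega

/-- **Ellenberg-Gijswijt**, in the form used here. -/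
theorem capset (l : ℕ) (A : Finset (Fin (3 * l) → ZMod 3)) (h : 3 * 343 ^ l < A.card * 16 ^ l) :
    ∃ v e : Fin (3 * l) → ZMod 3, e ≠ 0 ∧ v ∈ A ∧ v + e ∈ A ∧ v - e ∈ A := by
  classical
  by_contra hcon
  push Not at hcon
  have hA : ∀ x ∈ A, ∀ y ∈ A, ∀ z ∈ A, x + y + z = 0 → x = y ∧ y = z := by
    intro x hx y hy z hz hxyz
    have h3 : ∀ w : Fin (3 * l) → ZMod 3, w + w + w = 0 := by
      intro w
      funext i
      simp only [Pi.add_apply, Pi.zero_apply]
      generalize w i = t
      revert t
      decide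
    by_cases hxy : x = y
    · subst hxy
      refine ⟨rfl, ?_⟩
      have : x + x + x = x + x + z := by rw [h3, hxyz]
      exact add_left_cancel this
    · exfalso
      refine hcon x (y - x) (sub_ne_zero.2 (Ne.symm hxy)) hx ?_ ?_
      · simpa using hy
      · have : x - (y - x) = z := by
          have h1 : x - (y - x) = (x + x + x) - (x + y + z) + z := by abel
          rw [h1, h3, hxyz]; simp
        rw [this]; exact hz
  have h1 := capset_core l A hA
  have h2 := card_low l
  have : A.card * 16 ^ l ≤ 3 * 343 ^ l := by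
    calc A.card * 16 ^ l ≤ 3 * Fintype.card (Low l) * 16 ^ l := Nat.mul_le_mul_right _ h1
      _ = 3 * (Fintype.card (Low l) * 16 ^ l) := by ring
      _ ≤ 3 * 343 ^ l := Nat.mul_le_mul_left _ h2
  omega

end Pool.Agent.H18VS
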