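import Mathlib

/-!
# Vector space Ramsey numbers: definitions
-/

set_option autoImplicit false

namespace Pool.Agent.H18VS

/-- `n` has the Ramsey property for `(t; k)` over the field `K`: for every colouring `c` of the points
of `PG(n-1, K)` (the one-dimensional subspaces of `K^n`) with `k` colours there is a `(t-1)`-flat, the
set of all points contained in a `t`-dimensional linear subspace `W`, all of whose points have the
same colour `i`. -/
def Arrows (K : Type) [Field K] (t k n : ℕ) : Prop :=
  ∀ c : Projectivization K (Fin n → K) → Fin k,
    ∃ W : Submodule K (Fin n → K), Module.finrank K W = t ∧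
      ∃ i : Fin k, ∀ p : Projectivization K (Fin n → K), p.submodule ≤ W → c p = i

/-- The tower function: `twr 1 x = x` and `twr (i + 1) x = 2 ^ twr i x` for `i ≥ 1`. -/
def twr (i x : ℕ) : ℕ := (fun y => 2 ^ y)^[i - 1] x

end Pool.Agent.H18VS
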