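import Pool.Agent.H18VS.Supersat

/-!
# Affine flats in dense sets over `ZMod 3`
-/

set_option autoImplicit false

namespace Pool.Agent.H18VS

open Finset

variable {V : Type*} [AddCommGroup V] [Module (ZMod 3) V] [Fintype V] [DecidableEq V]

/-- the base points `x` of the flats `x + span u` contained in `A` -/
def flatSet {m : ℕ} (A : Finset V) (u : Fin m → V) : Finset V :=
  univ.filter (fun x => ∀ a : Fin m → ZMod 3, x + lin u a ∈ A)

theorem mem_flatSet {m : ℕ} {A : Finset V} {u : Fin m → V} {x : V} :
    x ∈ flatSet A u ↔ ∀ a : Fin m → ZMod 3, x + lin u a ∈ A := by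
  simp [flatSet]

omit [Fintype V] [DecidableEq V] in
theorem lin_cons {m : ℕ} (d : V) (u : Fin m → V) (a : Fin (m + 1) → ZMod 3) :
    lin (Fin.cons d u : Fin (m + 1) → V) a = a 0 • d + lin u (Fin.tail a) := by
  unfold lin
  rw [Fin.sum_univ_succ]
  simp [Fin.tail]

theorem mem_flatSet_cons {m : ℕ} {A : Finset V} {d : V} {u : Fin m → V} {x : V} :
    x ∈ flatSet A (Fin.cons d u : Fin (m + 1) → V) ↔
      x ∈ flatSet A u ∧ x + d ∈ flatSet A u ∧ x - d ∈ flatSet A u := by
  simp only [mem_flatSet, lin_cons]
  constructor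
  · intro h
    refine ⟨fun a => ?_, fun a => ?_, fun a => ?_⟩
    · have := h (Fin.cons 0 a)
      simpa using this
    · have := h (Fin.cons 1 a)
      simpa [add_assoc] using this
    · have := h (Fin.cons (-1) a)
      simp only [Fin.cons_zero, Fin.tail_cons, neg_smul, one_smul] at this
      rw [← add_assoc, ← sub_eq_add_neg] at this
      exact this
  · rintro ⟨h0, h1, h2⟩ a
    have h3 : a 0 = 0 ∨ a 0 = 1 ∨ a 0 = -1 := by
      generalize a 0 = t
      revert t
      decide
    rcases h3 with h | h | h
    · rw [h, zero_smul, zero_add]; exact h0 _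
    · rw [h, one_smul, ← add_assoc]; exact h1 _
    · rw [h, neg_smul, one_smul, ← add_assoc, ← sub_eq_add_neg]; exact h2 _

theorem sum_flatSet_succ {m : ℕ} (A : Finset V) :
    ∑ u : Fin (m + 1) → V, (flatSet A u).card = ∑ u : Fin m → V, T1 (flatSet A u) := by
  classical
  rw [← (Fin.consEquiv (fun _ : Fin (m + 1) => V)).sum_comp, Fintype.sum_prod_type, Finset.sum_comm]
  refine Finset.sum_congr rfl fun u _ => ?_
  have h1 : T1 (flatSet A u) = ∑ d : V, (univ.filter (fun x : V => x ∈ flatSet A u ∧ x + d ∈ flatSet A u ∧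
      x - d ∈ flatSet A u)).card := by
    unfold T1
    simp_rw [Finset.card_filter]
    rw [Fintype.sum_prod_type, Finset.sum_comm]
  rw [h1]
  refine Finset.sum_congr rfl fun d _ => ?_
  congr 1
  ext x
  have := mem_flatSet_cons (A := A) (d := d) (u := u) (x := x)
  simp only [Finset.mem_filter, Finset.mem_univ, true_and]
  exact this

/-- **Affine flats in dense sets.** -/
theorem flats (A : Finset V) (s : ℕ) (hs : 1 ≤ s) (hA : Fintype.card V ≤ A.card * 2 ^ s) (m : ℕ) :
    Fintype.card V ^ (m + 1) ≤ 2 ^ (512 ^ m * s) * ∑ u : Fin m → V, (flatSet A u).card := by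
  classical
  set N := Fintype.card V with hN
  have hNpos : 0 < N := Fintype.card_pos
  induction m with
  | zero =>
    have h0 : flatSet A (default : Fin 0 → V) = A := by
      ext x
      rw [mem_flatSet]
      constructor
      · intro h
        have := h default
        simpa [lin] using this
      · intro h a
        simpa [lin] using h
    rw [Fintype.sum_unique, h0]
    simp only [zero_add, pow_one, pow_zero, one_mul]
    rw [mul_comm]; exact hA
  | succ m ih =>
    rw [sum_flatSet_succ]
    set S := 512 ^ m * s with hS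
    have hS1 : 1 ≤ S := by
      have : 1 ≤ 512 ^ m := Nat.one_le_pow _ _ (by norm_num)
      nlinarith
    let U : Finset (Fin m → V) := univ.filter (fun u => N ≤ (flatSet A u).card * 2 ^ (S + 1))
    have hle : ∀ u : Fin m → V, (flatSet A u).card ≤ N := fun u => Finset.card_le_univ _
    have h1 : 2 ^ (S + 1) * ∑ u : Fin m → V, (flatSet A u).card ≤
        2 ^ (S + 1) * (U.card * N) + N ^ m * N := by
      rw [← Finset.sum_filter_add_sum_filter_not univ
        (fun u : Fin m → V => N ≤ (flatSet A u).card * 2 ^ (S + 1)), mul_add]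
      apply Nat.add_le_add
      · apply Nat.mul_le_mul_left
        rw [← smul_eq_mul U.card, ← Finset.sum_const]
        exact Finset.sum_le_sum fun u _ => hle u
      · rw [Finset.mul_sum]
        calc ∑ u ∈ univ.filter (fun u : Fin m → V => ¬ N ≤ (flatSet A u).card * 2 ^ (S + 1)),
              2 ^ (S + 1) * (flatSet A u).card
            ≤ ∑ u ∈ univ.filter (fun u : Fin m → V => ¬ N ≤ (flatSet A u).card * 2 ^ (S + 1)), N := by
              refine Finset.sum_le_sum fun u hu => ?_
              have := (Finset.mem_filter.1 hu).2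
              rw [mul_comm]
              omega
          _ ≤ ∑ u : Fin m → V, N := Finset.sum_le_sum_of_subset (Finset.filter_subset _ _)
          _ = N ^ m * N := by
              rw [Finset.sum_const, Finset.card_univ, Fintype.card_pi_const, smul_eq_mul]
    have h2 : N ^ (m + 1) ≤ 2 ^ (S + 1) * U.card * N := by
      have a1 : 2 * N ^ (m + 1) ≤ 2 ^ (S + 1) * ∑ u : Fin m → V, (flatSet A u).card := by
        calc 2 * N ^ (m + 1) ≤ 2 * (2 ^ S * ∑ u : Fin m → V, (flatSet A u).card) :=
              Nat.mul_le_mul_left _ ih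
          _ = _ := by ring
      have a2 : N ^ m * N = N ^ (m + 1) := by ring
      have a3 : 2 ^ (S + 1) * (U.card * N) = 2 ^ (S + 1) * U.card * N := by ring
      rw [a2, a3] at h1
      omega
    have h3 : U.card * N ^ 2 ≤ 2 ^ (158 * (S + 1)) * ∑ u : Fin m → V, T1 (flatSet A u) := by
      rw [Finset.mul_sum]
      calc U.card * N ^ 2 = ∑ u ∈ U, N ^ 2 := by rw [Finset.sum_const, smul_eq_mul]
        _ ≤ ∑ u ∈ U, 2 ^ (158 * (S + 1)) * T1 (flatSet A u) := by
            refine Finset.sum_le_sum fun u hu => ?_
            exact supersat' _ (S + 1) (by omega) (Finset.mem_filter.1 hu).2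
        _ ≤ _ := Finset.sum_le_sum_of_subset (Finset.subset_univ _)
    calc N ^ (m + 1 + 1) = N ^ (m + 1) * N := by ring
      _ ≤ (2 ^ (S + 1) * U.card * N) * N := Nat.mul_le_mul_right _ h2
      _ = 2 ^ (S + 1) * (U.card * N ^ 2) := by ring
      _ ≤ 2 ^ (S + 1) * (2 ^ (158 * (S + 1)) * ∑ u : Fin m → V, T1 (flatSet A u)) :=
          Nat.mul_le_mul_left _ h3
      _ = 2 ^ (159 * (S + 1)) * ∑ u : Fin m → V, T1 (flatSet A u) := by
          rw [← mul_assoc, ← pow_add]
          congr 2
          ring
      _ ≤ 2 ^ (512 ^ (m + 1) * s) * ∑ u : Fin m → V, T1 (flatSet A u) := by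
          apply Nat.mul_le_mul_right
          apply Nat.pow_le_pow_right (by norm_num)
          have : 512 ^ (m + 1) * s = 512 * S := by rw [hS]; ring
          rw [this]
          omega

omit [Module (ZMod 3) V] in
/-- Intersecting translates of dense sets. -/
theorem exists_translates {k : ℕ} (A : Fin k → Finset V) (S : Finset (Fin k)) (s : ℕ)
    (hA : ∀ i ∈ S, Fintype.card V ≤ (A i).card * 2 ^ s) :
    ∃ y : Fin k → V, Fintype.card V ≤
      (univ.filter (fun z : V => ∀ i ∈ S, z + y i ∈ A i)).card * 2 ^ (s * k) := by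
  classical
  set N := Fintype.card V with hN
  have hNpos : 0 < N := Fintype.card_pos
  by_contra hcon
  push Not at hcon
  have h1 : (∑ y : Fin k → V, (univ.filter (fun z : V => ∀ i ∈ S, z + y i ∈ A i)).card * 2 ^ (s * k)) <
      ∑ _y : Fin k → V, N := by
    apply Finset.sum_lt_sum_of_nonempty Finset.univ_nonempty
    intro y _
    exact hcon y
  rw [Finset.sum_const, Finset.card_univ, Fintype.card_pi_const, smul_eq_mul, ← Finset.sum_mul] at h1
  have h2 : ∑ y : Fin k → V, (univ.filter (fun z : V => ∀ i ∈ S, z + y i ∈ A i)).card =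
      ∑ z : V, (univ.filter (fun y : Fin k → V => ∀ i ∈ S, z + y i ∈ A i)).card := by
    simp_rw [Finset.card_filter]
    rw [Finset.sum_comm]
  have h3 : ∀ z : V, N ^ k ≤
      (univ.filter (fun y : Fin k → V => ∀ i ∈ S, z + y i ∈ A i)).card * 2 ^ (s * k) := by
    intro z
    have e1 : univ.filter (fun y : Fin k → V => ∀ i ∈ S, z + y i ∈ A i) =
        Fintype.piFinset (fun i => univ.filter (fun w : V => i ∈ S → z + w ∈ A i)) := by
      ext y
      simp [Fintype.mem_piFinset]
    rw [e1, Fintype.card_piFinset, pow_mul,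
      show (2 ^ s) ^ k = ∏ _i : Fin k, 2 ^ s by simp, ← Finset.prod_mul_distrib,
      show N ^ k = ∏ _i : Fin k, N by simp]
    apply Finset.prod_le_prod
    · intro i _; exact Nat.zero_le _
    · intro i _
      by_cases hi : i ∈ S
      · refine (hA i hi).trans (Nat.mul_le_mul_right _ ?_)
        apply Finset.card_le_card_of_injOn (fun w => w - z)
        · intro w hw
          have hw' : w ∈ A i := hw
          simp [hi, hw']
        · intro a _ b _ hab
          simpa using hab
      · have : univ.filter (fun w : V => i ∈ S → z + w ∈ A i) = univ := by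
          ext w; simp [hi]
        rw [this, Finset.card_univ]
        exact Nat.le_mul_of_pos_right _ (by positivity)
  have h4 : N * N ^ k ≤ (∑ z : V, (univ.filter (fun y : Fin k → V => ∀ i ∈ S, z + y i ∈ A i)).card) *
      2 ^ (s * k) := by
    rw [Finset.sum_mul]
    calc N * N ^ k = ∑ _z : V, N ^ k := by
          rw [Finset.sum_const, Finset.card_univ, smul_eq_mul]
      _ ≤ _ := Finset.sum_le_sum fun z _ => h3 z
  rw [h2, ← hN, mul_comm (N ^ k) N] at h1
  exact absurd h4 (not_le.2 h1)

end Pool.Agent.H18VS
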