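import Pool.Agent.H18VS.Flats

/-!
# The recursion for the vector space Ramsey numbers over `ZMod 3`
-/

set_option autoImplicit false

namespace Pool.Agent.H18VS

open Finset

/-- Vector form of the Ramsey property: every symmetric colouring of the vectors of `𝔽₃^n` with `k`
colours has a `t`-dimensional subspace whose nonzero vectors all have the same colour. -/
def Arr (t k n : ℕ) : Prop :=
  ∀ c : (Fin n → ZMod 3) → Fin k, (∀ x, c (-x) = c x) →
    ∃ W : Submodule (ZMod 3) (Fin n → ZMod 3), Module.finrank (ZMod 3) W = t ∧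
      ∃ i : Fin k, ∀ x ∈ W, x ≠ 0 → c x = i

/-- `lin u` as a linear map. -/
def linMap {V : Type*} [AddCommGroup V] [Module (ZMod 3) V] {m : ℕ} (u : Fin m → V) :
    (Fin m → ZMod 3) →ₗ[ZMod 3] V where
  toFun := lin u
  map_add' := lin_add u
  map_smul' := by
    intro r a
    simp [lin, Finset.smul_sum, mul_smul]

theorem lin_neg {V : Type*} [AddCommGroup V] [Module (ZMod 3) V] {m : ℕ} (u : Fin m → V)
    (a : Fin m → ZMod 3) : lin u (-a) = - lin u a := by
  simp [lin, Finset.sum_neg_distrib]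

theorem zmod3_cases (μ : ZMod 3) : μ = 0 ∨ μ = 1 ∨ μ = -1 := by
  revert μ
  decide

theorem numeric (m k : ℕ) (hk : 1 ≤ k) (s : ℕ) (hs : 1 ≤ s) :
    512 ^ m * (s * k) + 2 * m + k + 1 ≤ 2 ^ (9 * m + k + 2) * s := by
  have e1 : (512 : ℕ) ^ m = 2 ^ (9 * m) := by
    rw [pow_mul]; norm_num
  have e2 : (2 : ℕ) ^ (9 * m + k + 2) = 4 * (2 ^ (9 * m) * 2 ^ k) := by
    rw [pow_add, pow_add]; ring
  have h1 : 9 * m + 1 ≤ 2 ^ (9 * m) := Nat.lt_two_pow_self
  have h2 : k + 1 ≤ 2 ^ k := Nat.lt_two_pow_self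
  rw [e1, e2]
  set P := 2 ^ (9 * m) with hP
  set Q := 2 ^ k with hQ
  have h3 : 512 ^ m * (s * k) = 512 ^ m * (s * k) := rfl
  have h4 : P * (s * k) ≤ P * Q * s := by
    calc P * (s * k) = P * k * s := by ring
      _ ≤ P * Q * s := by
        apply Nat.mul_le_mul_right
        apply Nat.mul_le_mul_left
        omega
  have h5 : (2 * m + 1) * (k + 1) ≤ P * Q := Nat.mul_le_mul (by omega) h2
  have h6 : 2 * m + k + 1 ≤ (2 * m + 1) * (k + 1) := by nlinarith
  have h7 : P * Q ≤ P * Q * s := Nat.le_mul_of_pos_right _ hs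
  nlinarith

theorem step (t k m n : ℕ) (ht : 1 ≤ t) (hk : 1 ≤ k) (hm : Arr t k m)
    (hn : k * 2 ^ ((9 * m + k + 2) * (k + 1)) ≤ n) : Arr (t + 1) k n := by
  classical
  intro c hc
  set q := 9 * m + k + 2 with hq
  let V := Fin n → ZMod 3
  set N := Fintype.card V with hN
  have hN3 : N = 3 ^ n := by
    rw [hN, Fintype.card_pi_const, ZMod.card]
  have hNpos : 0 < N := by rw [hN3]; positivity
  let sc : ℕ → ℕ := fun j => k * 2 ^ (q * j)
  have hsc1 : ∀ j, 1 ≤ sc j := fun j => Nat.one_le_iff_ne_zero.2 (by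
    simp only [sc]; positivity)
  have hscs : ∀ j, sc (j + 1) = 2 ^ q * sc j := by
    intro j; simp only [sc]; rw [mul_add, pow_add]; ring_nf
  have hscmono : ∀ j j', j ≤ j' → sc j ≤ sc j' := by
    intro j j' h
    simp only [sc]
    exact Nat.mul_le_mul_left _ (Nat.pow_le_pow_right (by norm_num) (Nat.mul_le_mul_left _ h))
  let A : Fin k → Finset V := fun i => univ.filter (fun x : V => x ≠ 0 ∧ c x = i)
  -- a gap in the densities
  obtain ⟨j, hj, hgap⟩ : ∃ j, j ≤ k ∧ ∀ i : Fin k, N ≤ (A i).card * 2 ^ (sc (j + 1)) →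
      N ≤ (A i).card * 2 ^ (sc j) := by
    by_contra hcon
    push Not at hcon
    have hcon' : ∀ j : Fin (k + 1), ∃ i : Fin k, N ≤ (A i).card * 2 ^ (sc (j + 1)) ∧
        (A i).card * 2 ^ (sc j) < N := fun j => hcon j (by omega)
    choose g hg1 hg2 using hcon'
    obtain ⟨a, b, hab, hgab⟩ := Fintype.exists_ne_map_eq_of_card_lt g (by simp)
    have key : ∀ a b : Fin (k + 1), (a : ℕ) < b → g a = g b → False := by
      intro a b hlt he
      have h1 := hg1 a
      have h2 := hg2 b
      rw [← he] at h2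
      have h3 : (A (g a)).card * 2 ^ (sc (a + 1)) ≤ (A (g a)).card * 2 ^ (sc b) :=
        Nat.mul_le_mul_left _ (Nat.pow_le_pow_right (by norm_num) (hscmono _ _ (by omega)))
      omega
    rcases lt_or_gt_of_ne (fun h => hab (Fin.ext h) : (a : ℕ) ≠ b) with h | h
    · exact key a b h hgab
    · exact key b a h hgab.symm
  let S : Finset (Fin k) := univ.filter (fun i => N ≤ (A i).card * 2 ^ (sc j))
  have hSd : ∀ i ∈ S, N ≤ (A i).card * 2 ^ (sc j) := fun i hi => (Finset.mem_filter.1 hi).2
  have hSs : ∀ i, i ∉ S → (A i).card * 2 ^ (sc (j + 1)) < N := by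
    intro i hi
    by_contra h
    push Not at h
    exact hi (Finset.mem_filter.2 ⟨Finset.mem_univ _, hgap i h⟩)
  obtain ⟨y, hy⟩ := exists_translates A S (sc j) hSd
  set B : Finset V := univ.filter (fun z : V => ∀ i ∈ S, z + y i ∈ A i) with hB
  have hfl := flats B (sc j * k) (by
    have := hsc1 j
    nlinarith) hy m
  set Λ := 512 ^ m * (sc j * k) with hΛ
  -- tuples u such that some flat z + span u lies in B
  let D : Finset (Fin m → V) := univ.filter (fun u => (flatSet B u).Nonempty)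
  have hD : N ^ m ≤ 2 ^ Λ * D.card := by
    have h1 : ∑ u : Fin m → V, (flatSet B u).card ≤ D.card * N := by
      rw [← smul_eq_mul D.card, ← Finset.sum_const]
      calc ∑ u : Fin m → V, (flatSet B u).card = ∑ u ∈ D, (flatSet B u).card := by
            symm
            apply Finset.sum_subset (Finset.subset_univ _)
            intro u _ hu
            have : ¬ (flatSet B u).Nonempty := fun h => hu (Finset.mem_filter.2 ⟨Finset.mem_univ _, h⟩)
            rw [Finset.not_nonempty_iff_eq_empty] at this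
            simp [this]
        _ ≤ ∑ u ∈ D, N := Finset.sum_le_sum fun u _ => Finset.card_le_univ _
    have h2 : N * N ^ m ≤ N * (2 ^ Λ * D.card) := by
      calc N * N ^ m = N ^ (m + 1) := by ring
        _ ≤ 2 ^ Λ * ∑ u : Fin m → V, (flatSet B u).card := hfl
        _ ≤ 2 ^ Λ * (D.card * N) := Nat.mul_le_mul_left _ h1
        _ = _ := by ring
    exact Nat.le_of_mul_le_mul_left h2 hNpos
  -- sparse points
  let Z : Finset V := univ.filter (fun x : V => x = 0 ∨ c x ∉ S)
  have hZ : Z.card * 2 ^ (sc (j + 1)) ≤ (k + 1) * N := by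
    have h1 : Z ⊆ {0} ∪ (univ.filter (fun i : Fin k => i ∉ S)).biUnion A := by
      intro x hx
      have hx' : x = 0 ∨ c x ∉ S := (Finset.mem_filter.1 hx).2
      by_cases hx0 : x = 0
      · rw [hx0]; simp
      · rcases hx' with h | h
        · exact absurd h hx0
        · apply Finset.mem_union_right
          rw [Finset.mem_biUnion]
          exact ⟨c x, by simpa using h, by simp [A, hx0]⟩
    have h2 : Z.card ≤ 1 + ∑ i ∈ univ.filter (fun i : Fin k => i ∉ S), (A i).card := by
      refine (Finset.card_le_card h1).trans ((Finset.card_union_le _ _).trans ?_)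
      exact Nat.add_le_add (by simp) Finset.card_biUnion_le
    have h3 : 2 ^ (sc (j + 1)) ≤ N := by
      have h4 : sc (j + 1) ≤ n := by
        refine le_trans ?_ hn
        exact hscmono _ _ (by omega : j + 1 ≤ k + 1)
      calc 2 ^ (sc (j + 1)) ≤ 2 ^ n := Nat.pow_le_pow_right (by norm_num) h4
        _ ≤ 3 ^ n := Nat.pow_le_pow_left (by norm_num) n
        _ = N := hN3.symm
    calc Z.card * 2 ^ (sc (j + 1)) ≤
          (1 + ∑ i ∈ univ.filter (fun i : Fin k => i ∉ S), (A i).card) * 2 ^ (sc (j + 1)) :=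
          Nat.mul_le_mul_right _ h2
      _ = 2 ^ (sc (j + 1)) + ∑ i ∈ univ.filter (fun i : Fin k => i ∉ S), (A i).card * 2 ^ (sc (j + 1)) := by
          rw [add_mul, one_mul, Finset.sum_mul]
      _ ≤ N + ∑ i ∈ univ.filter (fun i : Fin k => i ∉ S), N := by
          apply Nat.add_le_add h3
          exact Finset.sum_le_sum fun i hi => (hSs i (Finset.mem_filter.1 hi).2).le
      _ ≤ N + ∑ i : Fin k, N := by
          apply Nat.add_le_add_left
          exact Finset.sum_le_sum_of_subset (Finset.filter_subset _ _)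
      _ = (k + 1) * N := by
          rw [Finset.sum_const, Finset.card_univ, Fintype.card_fin, smul_eq_mul]; ring
  -- bad tuples
  let E : Finset (Fin m → V) := univ.filter (fun u => ∃ a : Fin m → ZMod 3, a ≠ 0 ∧ lin u a ∈ Z)
  have hE : N * E.card ≤ 3 ^ m * (N ^ m * Z.card) := by
    have hcnt : ∀ a : Fin m → ZMod 3, a ≠ 0 →
        N * (univ.filter (fun u : Fin m → V => lin u a ∈ Z)).card = N ^ m * Z.card := by
      intro a ha
      let f : (Fin m → V) →+ V :=
        { toFun := fun u => lin u a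
          map_zero' := by simp [lin]
          map_add' := fun u u' => lin_add_left u u' a }
      have hf : Function.Surjective f := fun d => exists_lin_eq a ha d
      have := card_preimage_surj f hf (fun d => d ∈ Z)
      have hc2 : Fintype.card (Fin m → V) = N ^ m := by
        rw [Fintype.card_pi_const]
      rw [hc2] at this
      have e : (univ.filter (fun d : V => d ∈ Z)) = Z := by ext; simp
      rw [e] at this
      exact this
    have hcov : E ⊆ (univ.filter (fun a : Fin m → ZMod 3 => a ≠ 0)).biUnion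
        (fun a => univ.filter (fun u : Fin m → V => lin u a ∈ Z)) := by
      intro u hu
      obtain ⟨a, ha, hua⟩ := (Finset.mem_filter.1 hu).2
      rw [Finset.mem_biUnion]
      exact ⟨a, by simpa using ha, by simpa using hua⟩
    calc N * E.card ≤ N * ∑ a ∈ univ.filter (fun a : Fin m → ZMod 3 => a ≠ 0),
          (univ.filter (fun u : Fin m → V => lin u a ∈ Z)).card :=
          Nat.mul_le_mul_left _ ((Finset.card_le_card hcov).trans Finset.card_biUnion_le)
      _ = ∑ a ∈ univ.filter (fun a : Fin m → ZMod 3 => a ≠ 0), N ^ m * Z.card := by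
          rw [Finset.mul_sum]
          exact Finset.sum_congr rfl fun a ha => hcnt a (Finset.mem_filter.1 ha).2
      _ ≤ ∑ _a : Fin m → ZMod 3, N ^ m * Z.card :=
          Finset.sum_le_sum_of_subset (Finset.filter_subset _ _)
      _ = 3 ^ m * (N ^ m * Z.card) := by
          rw [Finset.sum_const, Finset.card_univ, Fintype.card_pi_const, ZMod.card, smul_eq_mul]
  have hnot : ¬ D ⊆ E := by
    intro hDE
    have h1 : D.card ≤ E.card := Finset.card_le_card hDE
    have h2 : N * N ^ m * 2 ^ (sc (j + 1)) ≤ 2 ^ Λ * 3 ^ m * (k + 1) * (N * N ^ m) := by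
      calc N * N ^ m * 2 ^ (sc (j + 1)) ≤ N * (2 ^ Λ * D.card) * 2 ^ (sc (j + 1)) :=
            Nat.mul_le_mul_right _ (Nat.mul_le_mul_left _ hD)
        _ ≤ N * (2 ^ Λ * E.card) * 2 ^ (sc (j + 1)) :=
            Nat.mul_le_mul_right _ (Nat.mul_le_mul_left _ (Nat.mul_le_mul_left _ h1))
        _ = 2 ^ Λ * (N * E.card) * 2 ^ (sc (j + 1)) := by ring
        _ ≤ 2 ^ Λ * (3 ^ m * (N ^ m * Z.card)) * 2 ^ (sc (j + 1)) :=
            Nat.mul_le_mul_right _ (Nat.mul_le_mul_left _ hE)
        _ = 2 ^ Λ * 3 ^ m * N ^ m * (Z.card * 2 ^ (sc (j + 1))) := by ring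
        _ ≤ 2 ^ Λ * 3 ^ m * N ^ m * ((k + 1) * N) := Nat.mul_le_mul_left _ hZ
        _ = _ := by ring
    have h3 : 2 ^ (sc (j + 1)) ≤ 2 ^ Λ * 3 ^ m * (k + 1) := by
      have : (N * N ^ m) * 2 ^ (sc (j + 1)) ≤ (N * N ^ m) * (2 ^ Λ * 3 ^ m * (k + 1)) := by
        calc (N * N ^ m) * 2 ^ (sc (j + 1)) ≤ 2 ^ Λ * 3 ^ m * (k + 1) * (N * N ^ m) := h2
          _ = _ := by ring
      exact Nat.le_of_mul_le_mul_left this (by positivity)
    have h4 : 2 ^ Λ * 3 ^ m * (k + 1) ≤ 2 ^ (Λ + 2 * m + k) := by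
      calc 2 ^ Λ * 3 ^ m * (k + 1) ≤ 2 ^ Λ * 4 ^ m * 2 ^ k := by
            apply Nat.mul_le_mul
            · exact Nat.mul_le_mul_left _ (Nat.pow_le_pow_left (by norm_num) _)
            · exact Nat.lt_two_pow_self
        _ = 2 ^ (Λ + 2 * m + k) := by
            rw [show (4 : ℕ) = 2 ^ 2 by norm_num, ← pow_mul, ← pow_add, ← pow_add]
    have h5 : 2 ^ (sc (j + 1)) ≤ 2 ^ (Λ + 2 * m + k) := h3.trans h4
    have h6 : sc (j + 1) ≤ Λ + 2 * m + k := (Nat.pow_le_pow_iff_right (by norm_num)).1 h5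
    have h7 := numeric m k hk (sc j) (hsc1 j)
    rw [hscs] at h6
    rw [← hq] at h7
    omega
  obtain ⟨u, huD, huE⟩ := Finset.not_subset.1 hnot
  obtain ⟨z, hz⟩ := (Finset.mem_filter.1 huD).2
  have huE' : ∀ a : Fin m → ZMod 3, a ≠ 0 → lin u a ∉ Z := by
    intro a ha h
    exact huE (Finset.mem_filter.2 ⟨Finset.mem_univ _, a, ha, h⟩)
  have hu0 : ∀ a : Fin m → ZMod 3, a ≠ 0 → lin u a ≠ 0 ∧ c (lin u a) ∈ S := by
    intro a ha
    have := huE' a ha
    simp only [Z, Finset.mem_filter, Finset.mem_univ, true_and, not_or, not_not] at this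
    exact this
  rw [mem_flatSet] at hz
  -- the coloring of the small space
  obtain ⟨W', hW', i, hi⟩ := hm (fun a => c (lin u a)) (by
    intro a
    rw [lin_neg, hc])
  have hinj : Function.Injective (linMap u) := by
    rw [injective_iff_map_eq_zero]
    intro a ha
    by_contra hne
    exact (hu0 a hne).1 ha
  have hiS : i ∈ S := by
    have : W' ≠ ⊥ := by
      intro h
      rw [h] at hW'
      simp at hW'
      omega
    obtain ⟨a, ha, ha0⟩ := (Submodule.ne_bot_iff _).1 this
    rw [← hi a ha ha0]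
    exact (hu0 a ha0).2
  set x := z + y i with hx
  have hxA : ∀ a : Fin m → ZMod 3, x + lin u a ≠ 0 ∧ c (x + lin u a) = i := by
    intro a
    have h1 := hz a
    rw [hB, Finset.mem_filter] at h1
    have h2 := h1.2 i hiS
    have h3 := (Finset.mem_filter.1 h2).2
    have e : z + lin u a + y i = x + lin u a := by rw [hx]; abel
    rw [e] at h3
    exact h3
  have hxnot : x ∉ Submodule.map (linMap u) W' := by
    rintro ⟨a, _, ha⟩
    have := (hxA (-a)).1
    apply this
    rw [lin_neg]
    have ha' : lin u a = x := ha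
    rw [ha']; simp
  refine ⟨Submodule.map (linMap u) W' ⊔ Submodule.span (ZMod 3) {x}, ?_, i, ?_⟩
  · rw [Submodule.finrank_sup_span_singleton hxnot]
    rw [← LinearEquiv.finrank_eq (Submodule.equivMapOfInjective (linMap u) hinj W'), hW']
  · intro w hw hw0
    rw [Submodule.mem_sup] at hw
    obtain ⟨p, hp, r, hr, rfl⟩ := hw
    obtain ⟨a, haW, rfl⟩ := hp
    rw [Submodule.mem_span_singleton] at hr
    obtain ⟨μ, rfl⟩ := hr
    have hlin : (linMap u) a = lin u a := rfl
    rw [hlin] at hw0 ⊢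
    rcases zmod3_cases μ with h | h | h
    · rw [h, zero_smul, add_zero] at hw0 ⊢
      apply hi a haW
      rintro rfl
      apply hw0
      simp [lin]
    · rw [h, one_smul, add_comm]
      exact (hxA a).2
    · rw [h, neg_smul, one_smul]
      have e : lin u a + -x = -(x + lin u (-a)) := by
        rw [lin_neg]; abel
      rw [e, hc]
      exact (hxA (-a)).2

end Pool.Agent.H18VS
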