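import Pool.Agent.H18VS.Defs
import Pool.Agent.H18VS.Step

/-!
# The ternary vector space Ramsey numbers are bounded by a tower of height independent of `k`
-/

set_option autoImplicit false

namespace Pool.Agent.H18VS

open Finset

theorem arr_one (k : ℕ) : Arr 1 k 1 := by
  intro c hc
  let x : Fin 1 → ZMod 3 := fun _ => 1
  have hx : x ≠ 0 := by
    intro h
    have := congrFun h 0
    simp [x] at this
  refine ⟨Submodule.span (ZMod 3) {x}, finrank_span_singleton hx, c x, ?_⟩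
  intro w hw hw0
  rw [Submodule.mem_span_singleton] at hw
  obtain ⟨μ, rfl⟩ := hw
  rcases zmod3_cases μ with h | h | h
  · rw [h] at hw0; simp at hw0
  · rw [h, one_smul]
  · rw [h, neg_smul, one_smul, hc]

/-- the bounds obtained by iterating `step` -/
def nn (k : ℕ) : ℕ → ℕ
  | 0 => 1
  | t + 1 => k * 2 ^ ((9 * nn k t + k + 2) * (k + 1))

theorem arr_nn (k : ℕ) (hk : 1 ≤ k) (t : ℕ) : Arr (t + 1) k (nn k t) := by
  induction t with
  | zero => exact arr_one k
  | succ t ih => exact step (t + 1) k (nn k t) _ (by omega) hk ih le_rfl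

theorem arrows_of_arr (t k n : ℕ) (hk : 1 ≤ k) (h : Arr t k n) : Arrows (ZMod 3) t k n := by
  classical
  intro c
  obtain ⟨W, hW, i, hi⟩ := h (fun x => if hx : x ≠ 0 then c (Projectivization.mk (ZMod 3) x hx)
    else ⟨0, hk⟩) (by
      intro x
      by_cases hx : x ≠ 0
      · have hx' : -x ≠ 0 := neg_ne_zero.2 hx
        rw [dif_pos hx, dif_pos hx']
        congr 1
        rw [Projectivization.mk_eq_mk_iff']
        exact ⟨-1, by simp⟩
      · have hx' : ¬ (-x ≠ 0) := by simpa using hx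
        rw [dif_neg hx, dif_neg hx'])
  refine ⟨W, by convert hW, i, ?_⟩
  intro p hp
  have h1 : p.rep ∈ W := by
    apply hp
    rw [Projectivization.submodule_eq]
    exact Submodule.mem_span_singleton_self _
  have h2 := hi p.rep h1 p.rep_nonzero
  rw [dif_pos p.rep_nonzero, Projectivization.mk_rep] at h2
  exact h2

theorem quad_le (c : ℕ) (hc : 16 ≤ c) : c ^ 2 + 14 * c + 21 ≤ 2 ^ c := by
  induction c, hc using Nat.le_induction with
  | base => norm_num
  | succ c hc ih =>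
    rw [pow_succ 2 c]
    nlinarith

theorem twr_succ (i x : ℕ) : twr (i + 2) x = 2 ^ twr (i + 1) x := by
  unfold twr
  rw [show i + 2 - 1 = (i + 1 - 1) + 1 by omega, Function.iterate_succ_apply']

theorem twr_one (x : ℕ) : twr 1 x = x := rfl

theorem base_bound (k : ℕ) (hk : 1 ≤ k) : k ^ 2 + 14 * k + 21 ≤ twr 5 k := by
  rw [show (5 : ℕ) = 3 + 2 by rfl, twr_succ, show 3 + 1 = 2 + 2 by rfl, twr_succ,
    show 2 + 1 = 1 + 2 by rfl, twr_succ, show 1 + 1 = 0 + 2 by rfl, twr_succ, twr_one]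
  have ha : k < 2 ^ k := Nat.lt_two_pow_self
  have ha2 : 2 ≤ 2 ^ k := by
    calc 2 = 2 ^ 1 := rfl
      _ ≤ 2 ^ k := Nat.pow_le_pow_right (by norm_num) hk
  set a := 2 ^ k
  have hb : a < 2 ^ a := Nat.lt_two_pow_self
  have hb2 : 4 ≤ 2 ^ a := by
    calc 4 = 2 ^ 2 := rfl
      _ ≤ 2 ^ a := Nat.pow_le_pow_right (by norm_num) ha2
  set b := 2 ^ a
  have hc : b < 2 ^ b := Nat.lt_two_pow_self
  have hc2 : 16 ≤ 2 ^ b := by
    calc 16 = 2 ^ 4 := rfl
      _ ≤ 2 ^ b := Nat.pow_le_pow_right (by norm_num) hb2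
  set c := 2 ^ b
  have h := quad_le c hc2
  have hkc : k ≤ c := by omega
  refine le_trans ?_ h
  have : k ^ 2 ≤ c ^ 2 := Nat.pow_le_pow_left hkc 2
  omega

theorem nn_bound (k : ℕ) (hk : 1 ≤ k) (t : ℕ) :
    k + (9 * nn k t + k + 2) * (k + 1) + k + 10 ≤ twr (t + 5) k := by
  induction t with
  | zero =>
    refine le_trans ?_ (base_bound k hk)
    simp only [nn]
    nlinarith
  | succ t ih =>
    rw [show t + 1 + 5 = (t + 4) + 2 by ring, twr_succ, show t + 4 + 1 = t + 5 by ring]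
    refine le_trans ?_ (Nat.pow_le_pow_right (by norm_num : 0 < 2) ih)
    set E := k + (9 * nn k t + k + 2) * (k + 1) with hE
    have h1 : nn k (t + 1) ≤ 2 ^ E := by
      show k * 2 ^ ((9 * nn k t + k + 2) * (k + 1)) ≤ 2 ^ E
      rw [hE, pow_add]
      exact Nat.mul_le_mul_right _ Nat.lt_two_pow_self.le
    have h2 : k + 1 ≤ 2 ^ k := Nat.lt_two_pow_self
    have h3 : k + 1 ≤ 2 ^ E := by
      refine le_trans h2 (Nat.pow_le_pow_right (by norm_num) ?_)
      rw [hE]; omega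
    have h4 : 2 ^ (E + k + 10) = 1024 * (2 ^ k * 2 ^ E) := by
      rw [pow_add, pow_add]; ring
    rw [h4]
    set P := 2 ^ E
    have h5 : (k + 1) * P ≤ 2 ^ k * P := Nat.mul_le_mul_right _ h2
    have h6 : (9 * nn k (t + 1) + k + 2) * (k + 1) ≤ (9 * P + k + 2) * (k + 1) := by
      apply Nat.mul_le_mul_right
      omega
    have h7 : k + (9 * P + k + 2) * (k + 1) + k + 10 ≤ 1024 * ((k + 1) * P) := by
      have h8 : (k + 1) * (k + 1) ≤ (k + 1) * P := Nat.mul_le_mul_left _ h3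
      nlinarith
    omega

theorem nn_le_twr (k : ℕ) (hk : 1 ≤ k) (t : ℕ) : nn k t ≤ twr (t + 5) k := by
  refine le_trans ?_ (nn_bound k hk t)
  nlinarith

theorem arrows_of_le (t k : ℕ) (ht : 1 ≤ t) (hk : 1 ≤ k) :
    ∃ n, Arrows (ZMod 3) t k n ∧ n ≤ twr (t + 4) k := by
  obtain ⟨s, rfl⟩ : ∃ s, t = s + 1 := ⟨t - 1, by omega⟩
  refine ⟨nn k s, arrows_of_arr _ _ _ hk (arr_nn k hk s), ?_⟩
  have := nn_le_twr k hk s
  rwa [show s + 1 + 4 = s + 5 by ring]

/-- the main theorem -/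
theorem main (t k : ℕ) (ht : 1 ≤ t) (hk : 1 ≤ k) :
    ∃ N, IsLeast {n | Arrows (ZMod 3) t k n} N ∧ N ≤ twr (t + 4) k := by
  classical
  obtain ⟨n, hn, hn2⟩ := arrows_of_le t k ht hk
  refine ⟨Nat.find ⟨n, hn⟩, ⟨Nat.find_spec ⟨n, hn⟩, fun m hm => Nat.find_min' ⟨n, hn⟩ hm⟩, ?_⟩
  exact (Nat.find_min' ⟨n, hn⟩ hn).trans hn2

end Pool.Agent.H18VS
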