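import Pool.Agent.H18VS.CapSet

/-!
# Supersaturation for three term progressions over `ZMod 3`
-/

set_option autoImplicit false

namespace Pool.Agent.H18VS

open Finset

/-- A surjective homomorphism of finite groups is equidistributed. -/
theorem card_preimage_surj {G H : Type*} [AddGroup G] [AddGroup H] [Fintype G] [Fintype H]
    [DecidableEq H] (f : G →+ H) (hf : Function.Surjective f) (P : H → Prop) [DecidablePred P] :
    Fintype.card H * (univ.filter (fun g => P (f g))).card =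
      Fintype.card G * (univ.filter (fun h => P h)).card := by
  classical
  have hfib : ∀ h : H, (univ.filter (fun g => f g = h)).card = (univ.filter (fun g => f g = 0)).card :=
    fun h => AddMonoidHom.card_fiber_eq_of_mem_range f (hf h) (hf 0)
  have h1 : (univ.filter (fun g => P (f g))).card =
      (univ.filter (fun h => P h)).card * (univ.filter (fun g => f g = 0)).card := by
    rw [Finset.card_eq_sum_card_fiberwise (f := f) (t := univ.filter (fun h => P h))]
    · rw [← smul_eq_mul, ← Finset.sum_const]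
      refine Finset.sum_congr rfl fun h hh => ?_
      rw [← hfib h]
      congr 1
      ext g
      simp only [Finset.mem_filter, Finset.mem_univ, true_and]
      constructor
      · rintro ⟨_, h2⟩; exact h2
      · intro h2
        refine ⟨?_, h2⟩
        rw [h2]
        simpa using hh
    · intro g hg
      simpa using hg
  have h2 : Fintype.card G = Fintype.card H * (univ.filter (fun g => f g = 0)).card := by
    rw [← Finset.card_univ, Finset.card_eq_sum_card_fiberwise (f := f) (t := univ)]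
    · rw [Finset.sum_congr rfl (fun h _ => hfib h)]
      simp
    · intro g _; simp
  rw [h1, h2]
  ring

variable {V : Type*} [AddCommGroup V] [Module (ZMod 3) V] [Fintype V] [DecidableEq V]

/-- the linear combination of the vectors `w i` with coefficients `v i` -/
def lin {m : ℕ} (w : Fin m → V) (v : Fin m → ZMod 3) : V := ∑ i, v i • w i

omit [Fintype V] [DecidableEq V] in
theorem lin_add {m : ℕ} (w : Fin m → V) (v v' : Fin m → ZMod 3) :
    lin w (v + v') = lin w v + lin w v' := by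
  simp [lin, add_smul, Finset.sum_add_distrib]

omit [Fintype V] [DecidableEq V] in
theorem lin_sub {m : ℕ} (w : Fin m → V) (v v' : Fin m → ZMod 3) :
    lin w (v - v') = lin w v - lin w v' := by
  simp [lin, sub_smul, Finset.sum_sub_distrib]

omit [Fintype V] [DecidableEq V] in
theorem lin_add_left {m : ℕ} (w w' : Fin m → V) (v : Fin m → ZMod 3) :
    lin (w + w') v = lin w v + lin w' v := by
  simp [lin, smul_add, Finset.sum_add_distrib]

omit [Fintype V] [DecidableEq V] in
theorem exists_lin_eq {m : ℕ} (e : Fin m → ZMod 3) (he : e ≠ 0) (d : V) :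
    ∃ w : Fin m → V, lin w e = d := by
  obtain ⟨i, hi⟩ := Function.ne_iff.1 he
  refine ⟨Pi.single i ((e i)⁻¹ • d), ?_⟩
  unfold lin
  rw [Finset.sum_eq_single i]
  · rw [Pi.single_eq_same, smul_smul, mul_inv_cancel₀ (by simpa using hi), one_smul]
  · intro j _ hj
    rw [Pi.single_eq_of_ne hj, smul_zero]
  · intro h; exact absurd (Finset.mem_univ _) h

/-- the number of pairs `(x, d)` with `x, x + d, x - d ∈ A` -/
def T1 (A : Finset V) : ℕ :=
  (univ.filter (fun p : V × V => p.1 ∈ A ∧ p.1 + p.2 ∈ A ∧ p.1 - p.2 ∈ A)).card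

theorem count_pairs {m : ℕ} (A : Finset V) (v e : Fin m → ZMod 3) (he : e ≠ 0) :
    Fintype.card V ^ 2 * (univ.filter (fun φ : V × (Fin m → V) =>
      φ.1 + lin φ.2 v ∈ A ∧ φ.1 + lin φ.2 (v + e) ∈ A ∧ φ.1 + lin φ.2 (v - e) ∈ A)).card =
      Fintype.card V ^ (m + 1) * T1 A := by
  let f : V × (Fin m → V) →+ V × V :=
    { toFun := fun φ => (φ.1 + lin φ.2 v, lin φ.2 e)
      map_zero' := by simp [lin]
      map_add' := by
        intro a b
        simp only [Prod.fst_add, Prod.snd_add, lin_add_left, Prod.mk_add_mk, Prod.mk.injEq, and_true]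
        abel }
  have hf : Function.Surjective f := by
    rintro ⟨x, d⟩
    obtain ⟨w, hw⟩ := exists_lin_eq e he d
    refine ⟨(x - lin w v, w), ?_⟩
    simp [f, hw]
  have h := card_preimage_surj f hf (fun p : V × V => p.1 ∈ A ∧ p.1 + p.2 ∈ A ∧ p.1 - p.2 ∈ A)
  rw [Fintype.card_prod, Fintype.card_prod, Fintype.card_pi_const] at h
  have e1 : (univ.filter (fun φ : V × (Fin m → V) =>
      φ.1 + lin φ.2 v ∈ A ∧ φ.1 + lin φ.2 (v + e) ∈ A ∧ φ.1 + lin φ.2 (v - e) ∈ A)) =
      univ.filter (fun g => (f g).1 ∈ A ∧ (f g).1 + (f g).2 ∈ A ∧ (f g).1 - (f g).2 ∈ A) := by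
    ext φ
    simp only [Finset.mem_filter, Finset.mem_univ, true_and, f, AddMonoidHom.coe_mk, ZeroHom.coe_mk]
    rw [lin_add, lin_sub, add_assoc, add_sub_assoc]
  rw [e1, T1]
  rw [sq, pow_succ']
  exact h

theorem count_single {m : ℕ} (A : Finset V) (v : Fin m → ZMod 3) :
    (univ.filter (fun φ : V × (Fin m → V) => φ.1 + lin φ.2 v ∈ A)).card =
      A.card * Fintype.card V ^ m := by
  have e1 : (univ.filter (fun φ : V × (Fin m → V) => φ.1 + lin φ.2 v ∈ A)).card =
      (A ×ˢ (univ : Finset (Fin m → V))).card := by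
    apply Finset.card_bij' (fun φ _ => (φ.1 + lin φ.2 v, φ.2)) (fun φ _ => (φ.1 - lin φ.2 v, φ.2))
    · intro φ _; simp
    · intro φ _; simp
    · intro φ hφ
      simpa using hφ
    · intro φ hφ
      simpa using hφ
  rw [e1, Finset.card_product, Finset.card_univ, Fintype.card_pi_const]

theorem supersat (A : Finset V) (s l : ℕ) (hA : Fintype.card V ≤ A.card * 2 ^ s)
    (hl : 3 * 343 ^ l * 2 ^ (s + 1) ≤ 432 ^ l) :
    Fintype.card V ^ 2 ≤ 2 ^ (s + 1) * 3 ^ (6 * l) * T1 A := by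
  classical
  set N := Fintype.card V with hN
  set m := 3 * l with hm
  let pre : V × (Fin m → V) → Finset (Fin m → ZMod 3) := fun φ =>
    univ.filter (fun v => φ.1 + lin φ.2 v ∈ A)
  let G : Finset (V × (Fin m → V)) := univ.filter (fun φ => 3 * 343 ^ l < (pre φ).card * 16 ^ l)
  have hNpos : 0 < N := Fintype.card_pos
  have hsum : ∑ φ : V × (Fin m → V), (pre φ).card = 27 ^ l * (A.card * N ^ m) := by
    have : ∀ φ, (pre φ).card = ∑ v : Fin m → ZMod 3, if φ.1 + lin φ.2 v ∈ A then 1 else 0 := by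
      intro φ
      rw [Finset.card_filter]
    simp_rw [this]
    rw [Finset.sum_comm]
    simp_rw [← Finset.card_filter, count_single]
    rw [Finset.sum_const, Finset.card_univ, Fintype.card_pi_const, ZMod.card, smul_eq_mul]
    rw [show (3 : ℕ) ^ m = 27 ^ l by rw [hm, pow_mul]; norm_num]
  have hpre_le : ∀ φ, (pre φ).card ≤ 27 ^ l := by
    intro φ
    calc (pre φ).card ≤ (univ : Finset (Fin m → ZMod 3)).card := Finset.card_le_card (Finset.filter_subset _ _)
      _ = 27 ^ l := by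
        rw [Finset.card_univ, Fintype.card_pi_const, ZMod.card, hm, pow_mul]
        norm_num
  have hcard : Fintype.card (V × (Fin m → V)) = N ^ (m + 1) := by
    rw [Fintype.card_prod, Fintype.card_pi_const, pow_succ']
  have h1 : 27 ^ l * (A.card * N ^ m) * 16 ^ l ≤ G.card * (27 ^ l * 16 ^ l) + N ^ (m + 1) * (3 * 343 ^ l) := by
    rw [← hsum, Finset.sum_mul, ← Finset.sum_filter_add_sum_filter_not univ
      (fun φ => 3 * 343 ^ l < (pre φ).card * 16 ^ l)]
    apply Nat.add_le_add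
    · rw [← smul_eq_mul G.card, ← Finset.sum_const]
      exact Finset.sum_le_sum fun φ _ => Nat.mul_le_mul_right _ (hpre_le φ)
    · calc ∑ φ ∈ univ.filter (fun φ => ¬ (3 * 343 ^ l < (pre φ).card * 16 ^ l)), (pre φ).card * 16 ^ l
          ≤ ∑ φ ∈ univ.filter (fun φ => ¬ (3 * 343 ^ l < (pre φ).card * 16 ^ l)), 3 * 343 ^ l := by
            refine Finset.sum_le_sum fun φ hφ => ?_
            have := (Finset.mem_filter.1 hφ).2
            omega
        _ ≤ ∑ φ : V × (Fin m → V), 3 * 343 ^ l :=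
            Finset.sum_le_sum_of_subset (Finset.filter_subset _ _)
        _ = N ^ (m + 1) * (3 * 343 ^ l) := by
            rw [Finset.sum_const, Finset.card_univ, hcard, smul_eq_mul]
  -- lower bound for the number of good maps
  have h2 : N ^ (m + 1) ≤ 2 ^ (s + 1) * G.card := by
    have e27 : (27 : ℕ) ^ l * 16 ^ l = 432 ^ l := by rw [← mul_pow]; norm_num
    have a1 : 432 ^ l * (2 * N ^ (m + 1)) ≤ 2 ^ (s + 1) * (27 ^ l * (A.card * N ^ m) * 16 ^ l) := by
      calc 432 ^ l * (2 * N ^ (m + 1)) = 432 ^ l * 2 * N ^ m * N := by ring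
        _ ≤ 432 ^ l * 2 * N ^ m * (A.card * 2 ^ s) := Nat.mul_le_mul_left _ hA
        _ = 2 ^ (s + 1) * ((27 ^ l * 16 ^ l) * (A.card * N ^ m)) := by rw [e27]; ring
        _ = _ := by ring
    have a2 : 2 ^ (s + 1) * (27 ^ l * (A.card * N ^ m) * 16 ^ l) ≤
        2 ^ (s + 1) * (G.card * (27 ^ l * 16 ^ l) + N ^ (m + 1) * (3 * 343 ^ l)) :=
      Nat.mul_le_mul_left _ h1
    have a3 : 2 ^ (s + 1) * (G.card * (27 ^ l * 16 ^ l) + N ^ (m + 1) * (3 * 343 ^ l)) ≤
        432 ^ l * (2 ^ (s + 1) * G.card + N ^ (m + 1)) := by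
      calc 2 ^ (s + 1) * (G.card * (27 ^ l * 16 ^ l) + N ^ (m + 1) * (3 * 343 ^ l))
          = 432 ^ l * (2 ^ (s + 1) * G.card) + N ^ (m + 1) * (3 * 343 ^ l * 2 ^ (s + 1)) := by
            rw [e27]; ring
        _ ≤ 432 ^ l * (2 ^ (s + 1) * G.card) + N ^ (m + 1) * 432 ^ l := by
            apply Nat.add_le_add_left
            exact Nat.mul_le_mul_left _ hl
        _ = _ := by ring
    have a4 : 432 ^ l * (2 * N ^ (m + 1)) ≤ 432 ^ l * (2 ^ (s + 1) * G.card + N ^ (m + 1)) :=
      a1.trans (a2.trans a3)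
    have a5 := Nat.le_of_mul_le_mul_left a4 (by positivity)
    omega
  -- upper bound
  have h3 : N ^ 2 * G.card ≤ 3 ^ (6 * l) * (N ^ (m + 1) * T1 A) := by
    have hcover : G ⊆ (univ.filter (fun q : (Fin m → ZMod 3) × (Fin m → ZMod 3) => q.2 ≠ 0)).biUnion
        (fun q => univ.filter (fun φ : V × (Fin m → V) =>
          φ.1 + lin φ.2 q.1 ∈ A ∧ φ.1 + lin φ.2 (q.1 + q.2) ∈ A ∧ φ.1 + lin φ.2 (q.1 - q.2) ∈ A)) := by
      intro φ hφ
      have hg : 3 * 343 ^ l < (pre φ).card * 16 ^ l := (Finset.mem_filter.1 hφ).2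
      obtain ⟨v, e, he, hv1, hv2, hv3⟩ := capset l (pre φ) hg
      rw [Finset.mem_biUnion]
      refine ⟨(v, e), by simpa using he, ?_⟩
      simp only [pre, Finset.mem_filter, Finset.mem_univ, true_and] at hv1 hv2 hv3 ⊢
      exact ⟨hv1, hv2, hv3⟩
    calc N ^ 2 * G.card ≤ N ^ 2 * ∑ q ∈ univ.filter (fun q : (Fin m → ZMod 3) × (Fin m → ZMod 3) => q.2 ≠ 0),
          (univ.filter (fun φ : V × (Fin m → V) =>
          φ.1 + lin φ.2 q.1 ∈ A ∧ φ.1 + lin φ.2 (q.1 + q.2) ∈ A ∧ φ.1 + lin φ.2 (q.1 - q.2) ∈ A)).card :=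
            Nat.mul_le_mul_left _ ((Finset.card_le_card hcover).trans Finset.card_biUnion_le)
      _ = ∑ q ∈ univ.filter (fun q : (Fin m → ZMod 3) × (Fin m → ZMod 3) => q.2 ≠ 0), N ^ (m + 1) * T1 A := by
            rw [Finset.mul_sum]
            refine Finset.sum_congr rfl fun q hq => ?_
            exact count_pairs A q.1 q.2 (Finset.mem_filter.1 hq).2
      _ ≤ ∑ q : (Fin m → ZMod 3) × (Fin m → ZMod 3), N ^ (m + 1) * T1 A :=
            Finset.sum_le_sum_of_subset (Finset.filter_subset _ _)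
      _ = 3 ^ (6 * l) * (N ^ (m + 1) * T1 A) := by
            rw [Finset.sum_const, Finset.card_univ, Fintype.card_prod, Fintype.card_pi_const, ZMod.card,
              smul_eq_mul, ← pow_add]
            congr 2
            omega
  have h4 : N ^ (m + 1) * N ^ 2 ≤ N ^ (m + 1) * (2 ^ (s + 1) * 3 ^ (6 * l) * T1 A) := by
    calc N ^ (m + 1) * N ^ 2 ≤ (2 ^ (s + 1) * G.card) * N ^ 2 := Nat.mul_le_mul_right _ h2
      _ = 2 ^ (s + 1) * (N ^ 2 * G.card) := by ring
      _ ≤ 2 ^ (s + 1) * (3 ^ (6 * l) * (N ^ (m + 1) * T1 A)) := Nat.mul_le_mul_left _ h3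
      _ = _ := by ring
  exact Nat.le_of_mul_le_mul_left h4 (by positivity)

theorem good_l (s : ℕ) : 3 * 343 ^ (4 * (s + 1) + 5) * 2 ^ (s + 1) ≤ 432 ^ (4 * (s + 1) + 5) := by
  have h1 : 343 ^ (4 * (s + 1)) * 2 ^ (s + 1) ≤ 432 ^ (4 * (s + 1)) := by
    rw [pow_mul, pow_mul, ← mul_pow]
    exact Nat.pow_le_pow_left (by norm_num) _
  calc 3 * 343 ^ (4 * (s + 1) + 5) * 2 ^ (s + 1) =
      (343 ^ (4 * (s + 1)) * 2 ^ (s + 1)) * (3 * 343 ^ 5) := by ring
    _ ≤ 432 ^ (4 * (s + 1)) * 432 ^ 5 := Nat.mul_le_mul h1 (by norm_num)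
    _ = _ := by rw [← pow_add]

/-- **Supersaturation**: a set of density at least `2^{-s}`, `s ≥ 1`, contains at least a
proportion `2^{-158 s}` of all three term progressions. -/
theorem supersat' (A : Finset V) (s : ℕ) (hs : 1 ≤ s) (hA : Fintype.card V ≤ A.card * 2 ^ s) :
    Fintype.card V ^ 2 ≤ 2 ^ (158 * s) * T1 A := by
  have h := supersat A s (4 * (s + 1) + 5) hA (good_l s)
  refine h.trans (Nat.mul_le_mul_right _ ?_)
  calc 2 ^ (s + 1) * 3 ^ (6 * (4 * (s + 1) + 5)) ≤ 2 ^ (s + 1) * 4 ^ (6 * (4 * (s + 1) + 5)) := by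
        apply Nat.mul_le_mul_left
        exact Nat.pow_le_pow_left (by norm_num) _
    _ = 2 ^ (s + 1 + 2 * (6 * (4 * (s + 1) + 5))) := by
        rw [show (4 : ℕ) = 2 ^ 2 by norm_num, ← pow_mul, ← pow_add]
    _ ≤ 2 ^ (158 * s) := Nat.pow_le_pow_right (by norm_num) (by omega)

end Pool.Agent.H18VS
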